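import Pool.Agent.R76.Cake.Main

/-!
# MP_a8acf3_co, Q1 (affirmative answer)

Personalised piece counts in multi-island cake cutting: for all numbers `m, n ≥ 1`, every multicake
with `m` islands, all `k i ≥ 1` and all value densities there is an allocation in which agent `i`
gets a union of at most `k i` intervals of total value at least
`min (1 / n) (k i / (m + n - 1))` times the value of the whole cake.
-/

namespace Pool.Agent.Results.MP_a8acf3_co.PersonalizedPieces

open MeasureTheory

/-- Island `j` of the multicake: the closed unit interval `[c j, c j + 1]`. -/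
def Island {m : ℕ} (c : Fin m → ℝ) (j : Fin m) : Set ℝ := Set.Icc (c j) (c j + 1)

/-- The multicake `C`, the union of the islands. -/
def Cake {m : ℕ} (c : Fin m → ℝ) : Set ℝ := ⋃ j, Island c j

/-- `Z` is a union of at most `k` intervals of the multicake, each contained in one island. -/
def AtMostIntervals {m : ℕ} (c : Fin m → ℝ) (k : ℕ) (Z : Set ℝ) : Prop :=
  ∃ P : Finset (Set ℝ), P.card ≤ k ∧
    (∀ s ∈ P, s.OrdConnected ∧ ∃ j, s ⊆ Island c j) ∧ Z = ⋃₀ (P : Set (Set ℝ))

theorem result :
    ∀ (m n : ℕ), 1 ≤ m → 1 ≤ n →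
    ∀ c : Fin m → ℝ, (∀ j j', j ≠ j' → Disjoint (Island c j) (Island c j')) →
    ∀ k : Fin n → ℕ, (∀ i, 1 ≤ k i) →
    ∀ v : Fin n → ℝ → ℝ, (∀ i, IntegrableOn (v i) (Cake c) volume) →
      (∀ i, ∀ x ∈ Cake c, 0 ≤ v i x) →
    ∃ Z : Fin n → Set ℝ,
      (∀ i i', i ≠ i' → Disjoint (Z i) (Z i')) ∧
      ∀ i, Z i ⊆ Cake c ∧ MeasurableSet (Z i) ∧ AtMostIntervals c (k i) (Z i) ∧
        min (1 / (n : ℝ)) ((k i : ℝ) / ((m : ℝ) + n - 1)) * ∫ x in Cake c, v i x
          ≤ ∫ x in Z i, v i x := by
  classical
  intro m n hm hn c hdis k hk v hint hnn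
  have hmr : (1 : ℝ) ≤ m := by exact_mod_cast hm
  have hnr : (1 : ℝ) ≤ n := by exact_mod_cast hn
  have hCm : MeasurableSet (Cake c) := MeasurableSet.iUnion (fun j => measurableSet_Icc)
  set vt : Fin n → ℝ → ℝ := fun i => (Cake c).indicator (v i) with hvt
  have hvti : ∀ i, Integrable (vt i) volume := fun i => (integrable_indicator_iff hCm).mpr (hint i)
  have hvt0 : ∀ i x, 0 ≤ vt i x := fun i x => Set.indicator_nonneg (hnn i) x
  have hvteq : ∀ i, ∀ s, MeasurableSet s → s ⊆ Cake c → ∫ x in s, vt i x = ∫ x in s, v i x := by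
    intro i s hs hsC
    apply setIntegral_congr_fun hs
    intro x hx
    simp only [hvt]
    exact Set.indicator_of_mem (hsC hx) _
  set T : Fin n → ℝ := fun i => ∫ x in Cake c, v i x with hT
  have hT0 : ∀ i, 0 ≤ T i := fun i => setIntegral_nonneg hCm (hnn i)
  set ρ : Fin n → ℝ := fun i => min (1 / (n : ℝ)) ((k i : ℝ) / ((m : ℝ) + n - 1)) with hρ
  have hkr : ∀ i, (1 : ℝ) ≤ k i := fun i => by exact_mod_cast hk i
  have hρ0 : ∀ i, 0 < ρ i := by
    intro i
    have h1 := hkr i
    exact lt_min (by positivity) (div_pos (by linarith) (by linarith))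
  -- the cumulative value functions
  set F : Fin n → Fin m → ℝ → ℝ := fun i _ t =>
    if T i = 0 then ((m : ℝ) + n) * t else (ρ i * T i)⁻¹ * ∫ s in (0 : ℝ)..t, vt i s with hF
  have hcont : ∀ i j, Continuous (F i j) := by
    intro i j
    simp only [hF]
    split_ifs
    · exact continuous_const.mul continuous_id
    · exact continuous_const.mul (intervalIntegral.continuous_primitive
        (fun a b => (hvti i).intervalIntegrable) 0)
  have hdiff : ∀ i j s t, T i ≠ 0 →
      F i j t - F i j s = (ρ i * T i)⁻¹ * ∫ u in s..t, vt i u := by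
    intro i j s t h
    simp only [hF, if_neg h]
    rw [← mul_sub, intervalIntegral.integral_interval_sub_left
      (hvti i).intervalIntegrable (hvti i).intervalIntegrable]
  have hTpos : ∀ i, T i ≠ 0 → 0 < ρ i * T i := by
    intro i h
    exact mul_pos (hρ0 i) (lt_of_le_of_ne (hT0 i) (Ne.symm h))
  have hmono : ∀ i j, Monotone (F i j) := by
    intro i j s t hst
    by_cases h : T i = 0
    · simp only [hF, if_pos h]
      exact mul_le_mul_of_nonneg_left hst (by linarith)
    · have h1 := hdiff i j s t h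
      have h2 : 0 ≤ (ρ i * T i)⁻¹ * ∫ u in s..t, vt i u :=
        mul_nonneg (inv_nonneg.mpr (hTpos i h).le)
          (intervalIntegral.integral_nonneg hst (fun u _ => hvt0 i u))
      linarith
  have hisl : ∀ j, Island c j ⊆ Cake c := fun j => Set.subset_iUnion _ j
  have htot : ∀ i, T i ≠ 0 → Pool.Agent.R76.Cake.V F c (fun j => c j + 1) i Finset.univ =
      (ρ i)⁻¹ := by
    intro i h
    unfold Pool.Agent.R76.Cake.V
    have h1 : ∀ j ∈ (Finset.univ : Finset (Fin m)), F i j (c j + 1) - F i j (c j) =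
        (ρ i * T i)⁻¹ * ∫ x in Island c j, v i x := by
      intro j _
      rw [hdiff i j _ _ h, intervalIntegral.integral_of_le (by linarith), Island,
        integral_Icc_eq_integral_Ioc,
        hvteq i _ measurableSet_Ioc (Set.Ioc_subset_Icc_self.trans (hisl j))]
    rw [Finset.sum_congr rfl h1, ← Finset.mul_sum]
    have h2 : T i = ∑ j, ∫ x in Island c j, v i x := by
      simp only [hT, Cake]
      apply integral_iUnion_fintype (fun j => measurableSet_Icc)
      · intro j j' hne
        exact hdis j j' hne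
      · intro j
        exact (hint i).mono_set (hisl j)
    rw [← h2, mul_inv]
    field_simp
  have htot0 : ∀ i, T i = 0 → Pool.Agent.R76.Cake.V F c (fun j => c j + 1) i Finset.univ =
      m * ((m : ℝ) + n) := by
    intro i h
    unfold Pool.Agent.R76.Cake.V
    have h1 : ∀ j ∈ (Finset.univ : Finset (Fin m)), F i j (c j + 1) - F i j (c j) =
        (m : ℝ) + n := by
      intro j _
      simp only [hF, if_pos h]
      ring
    rw [Finset.sum_congr rfl h1]
    simp
    ring
  have hbig : ∀ i, (n : ℝ) ≤ Pool.Agent.R76.Cake.V F c (fun j => c j + 1) i Finset.univ ∧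
      (m : ℝ) + n - 1 ≤ k i * Pool.Agent.R76.Cake.V F c (fun j => c j + 1) i Finset.univ := by
    intro i
    have hk1 := hkr i
    by_cases h : T i = 0
    · rw [htot0 i h]
      have h3 : (m : ℝ) + n ≤ m * ((m : ℝ) + n) := by nlinarith
      refine ⟨by linarith, ?_⟩
      have h4 : (m : ℝ) * ((m : ℝ) + n) ≤ k i * (m * ((m : ℝ) + n)) := by
        have : 0 ≤ (m : ℝ) * ((m : ℝ) + n) := by positivity
        nlinarith
      linarith
    · rw [htot i h]
      have hr := hρ0 i
      have h1 : ρ i ≤ 1 / n := min_le_left _ _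
      have h2 : ρ i ≤ (k i : ℝ) / ((m : ℝ) + n - 1) := min_le_right _ _
      constructor
      · rw [le_inv_comm₀ (by linarith) hr]
        simpa using h1
      · rw [le_div_iff₀ (by linarith)] at h2
        rw [← div_eq_mul_inv, le_div_iff₀ hr]
        linarith
  obtain ⟨K, x, y, g1, g2⟩ := Pool.Agent.R76.Cake.main F (fun j => c j + 1) k hcont hmono n
    Finset.univ (by simp) Finset.univ c (by intro _; simp; omega)
    (by intro j _; linarith) (fun i _ => hk i) (fun i _ => (hbig i).1)
    (fun i _ => by simpa using (hbig i).2)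
  have hsub : ∀ i, ∀ j ∈ K i, Set.Ioc (x i j) (y i j) ⊆ Island c j := by
    intro i j hj z hz
    obtain ⟨_, _, h3, _⟩ := g1 i (Finset.mem_univ i)
    obtain ⟨e1, e2, e3⟩ := h3 j hj
    exact ⟨by linarith [hz.1], hz.2.trans e3⟩
  refine ⟨fun i => ⋃ j ∈ K i, Set.Ioc (x i j) (y i j), ?_, ?_⟩
  · intro i i' hne
    rw [Set.disjoint_left]
    intro z hz hz'
    simp only [Set.mem_iUnion] at hz hz'
    obtain ⟨j, hj, hz⟩ := hz
    obtain ⟨j', hj', hz'⟩ := hz'
    by_cases h : j = j'
    · subst h
      rcases g2 i (Finset.mem_univ _) i' (Finset.mem_univ _) hne j hj hj' with h | h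
      · exact absurd (hz'.1) (not_lt.mpr (hz.2.trans h))
      · exact absurd (hz.1) (not_lt.mpr (hz'.2.trans h))
    · exact Set.disjoint_left.mp (hdis j j' h) (hsub i j hj hz) (hsub i' j' hj' hz')
  · intro i
    obtain ⟨hK1, hK2, hK3, hK4⟩ := g1 i (Finset.mem_univ i)
    have hZsub : (⋃ j ∈ K i, Set.Ioc (x i j) (y i j)) ⊆ Cake c :=
      Set.iUnion₂_subset (fun j hj => (hsub i j hj).trans (hisl j))
    have hZm : MeasurableSet (⋃ j ∈ K i, Set.Ioc (x i j) (y i j)) :=
      Finset.measurableSet_biUnion _ (fun j _ => measurableSet_Ioc)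
    refine ⟨hZsub, hZm, ?_, ?_⟩
    · refine ⟨(K i).image (fun j => Set.Ioc (x i j) (y i j)),
        Finset.card_image_le.trans hK2, ?_, ?_⟩
      · intro s hs
        rw [Finset.mem_image] at hs
        obtain ⟨j, hj, rfl⟩ := hs
        exact ⟨Set.ordConnected_Ioc, j, hsub i j hj⟩
      · ext z
        simp only [Set.mem_iUnion, Set.mem_sUnion, Finset.coe_image, Set.mem_image,
          Finset.mem_coe]
        constructor
        · rintro ⟨j, hj, hz⟩
          exact ⟨_, ⟨j, hj, rfl⟩, hz⟩
        · rintro ⟨_, ⟨j, hj, rfl⟩, hz⟩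
          exact ⟨j, hj, hz⟩
    · change ρ i * T i ≤ _
      by_cases h : T i = 0
      · rw [h, mul_zero]
        exact setIntegral_nonneg hZm (fun z hz => hnn i z (hZsub hz))
      · have hval : ∫ z in (⋃ j ∈ K i, Set.Ioc (x i j) (y i j)), v i z =
            ∑ j ∈ K i, ∫ z in Set.Ioc (x i j) (y i j), v i z := by
          apply integral_biUnion_finset _ (fun j _ => measurableSet_Ioc)
          · intro j hj j' hj' hne
            exact Set.disjoint_of_subset (hsub i j hj) (hsub i j' hj') (hdis j j' hne)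
          · intro j hj
            exact (hint i).mono_set ((hsub i j hj).trans (hisl j))
        have hterm : ∀ j ∈ K i, F i j (y i j) - F i j (x i j) =
            (ρ i * T i)⁻¹ * ∫ z in Set.Ioc (x i j) (y i j), v i z := by
          intro j hj
          rw [hdiff i j _ _ h, intervalIntegral.integral_of_le (hK3 j hj).2.1,
            hvteq i _ measurableSet_Ioc ((hsub i j hj).trans (hisl j))]
        rw [Finset.sum_congr rfl hterm, ← Finset.mul_sum, ← hval] at hK4
        have hp := hTpos i h
        rw [← div_eq_inv_mul, le_div_iff₀ hp, one_mul] at hK4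
        exact hK4

end Pool.Agent.Results.MP_a8acf3_co.PersonalizedPieces
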